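import Mathlib

set_option autoImplicit false

namespace Pool.Agent.Results.MP_f9fe38_co.NotLocal

/-- The support function of a planar set, as a function on the circle of directions. -/
noncomputable def supp (A : Set (ℝ × ℝ)) (θ : Real.Angle) : ℝ :=
  sSup ((fun x : ℝ × ℝ => x.1 * θ.cos + x.2 * θ.sin) '' A)

/-- The cylinder `S¹ × ℝ`. -/
abbrev Cyl : Type := Real.Angle × ℝ

/-- The support curve of a body: the graph of its support function. -/
def curve (A : Set (ℝ × ℝ)) : Set Cyl := {q | q.2 = supp A q.1}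

/-- The common supporting tangents of two bodies, given by their outer normal directions. -/
def tangents (A B : Set (ℝ × ℝ)) : Set Real.Angle := {θ | supp A θ = supp B θ}

/-- Arrangements of bodies. -/
structure IsArrangement {ι : Type} (A : ι → Set (ℝ × ℝ)) : Prop where
  /-- every member is a nonempty compact convex set -/
  body : ∀ i, IsCompact (A i) ∧ Convex ℝ (A i) ∧ (A i).Nonempty
  /-- no intersection point of two bodies lies on a common supporting tangent -/
  transversal : ∀ i j, i ≠ j → ∀ θ ∈ tangents (A i) (A j), ∀ p ∈ A i ∩ A j,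
    p.1 * θ.cos + p.2 * θ.sin ≠ supp (A i) θ
  /-- no three bodies share a common supporting tangent -/
  noThree : ∀ i j k, i ≠ j → j ≠ k → i ≠ k → ∀ θ, θ ∈ tangents (A i) (A j) →
    θ ∉ tangents (A j) (A k)
  /-- finitely many common supporting tangents -/
  finite : ∀ i j, i ≠ j → (tangents (A i) (A j)).Finite

/-- `φ` is isotopic to the identity through self-homeomorphisms of the cylinder; in particular it
preserves the orientation. -/
def IsotopicToId (φ : Cyl ≃ₜ Cyl) : Prop :=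
  ∃ F : unitInterval → (Cyl ≃ₜ Cyl), Continuous (fun x : unitInterval × Cyl => F x.1 x.2) ∧
    F 0 = Homeomorph.refl Cyl ∧ F 1 = φ

/-- `φ` preserves `+∞`. -/
def PreservesTop (φ : Cyl ≃ₜ Cyl) : Prop :=
  ∃ Y : ℝ, ∀ y, Y ≤ y → ∀ θ : Real.Angle, 0 < (φ (θ, y)).2

/-- The members of the two families with index in `S` have the same combinatorial type, in a
strong form: the homeomorphism is isotopic to the identity. -/
def SameTypeOn {ι : Type} (S : Finset ι) (A B : ι → Set (ℝ × ℝ)) : Prop :=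
  ∃ φ : Cyl ≃ₜ Cyl, IsotopicToId φ ∧ PreservesTop φ ∧ ∀ i ∈ S, φ '' curve (A i) = curve (B i)

/-- The two families are equivalent in a weak form: some self-homeomorphism of the cylinder
(orientation-preserving or not, preserving `+∞` or not) carries the curves to the curves. -/
def WeaklySame {ι : Type} (A B : ι → Set (ℝ × ℝ)) : Prop :=
  ∃ φ : Cyl ≃ₜ Cyl, ∀ i, φ '' curve (A i) = curve (B i)

/-! ### A family of bodies with explicit support functions -/

noncomputable def hf (ρ a b ε : ℝ) (θ : Real.Angle) : ℝ :=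
  ρ + a * θ.cos + b * θ.sin + ε * (4 * θ.cos ^ 3 - 3 * θ.cos)

/-- The derivative of `hf`. -/
noncomputable def dhf (a b ε : ℝ) (θ : Real.Angle) : ℝ :=
  -a * θ.sin + b * θ.cos - 3 * ε * (θ.sin * (4 * θ.cos ^ 2 - 1))

def bodyOf (h : Real.Angle → ℝ) : Set (ℝ × ℝ) := {p | ∀ θ, p.1 * θ.cos + p.2 * θ.sin ≤ h θ}

theorem ang_sq (θ : Real.Angle) : θ.cos ^ 2 + θ.sin ^ 2 = 1 := Real.Angle.cos_sq_add_sin_sq θ

theorem acos_le (θ : Real.Angle) : |θ.cos| ≤ 1 := by
  rw [abs_le_one_iff_mul_self_le_one]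
  nlinarith [ang_sq θ, sq_nonneg θ.sin]

theorem asin_le (θ : Real.Angle) : |θ.sin| ≤ 1 := by
  rw [abs_le_one_iff_mul_self_le_one]
  nlinarith [ang_sq θ, sq_nonneg θ.cos]

theorem abs_C3 (θ : Real.Angle) : |4 * θ.cos ^ 3 - 3 * θ.cos| ≤ 1 := by
  induction θ using Real.Angle.induction_on with
  | _ t =>
    rw [Real.Angle.cos_coe, ← Real.cos_three_mul]
    exact Real.abs_cos_le_one _

/-- The touching point. -/
noncomputable def touch (ρ a b ε : ℝ) (θ : Real.Angle) : ℝ × ℝ :=
  (a + (ρ + ε * (4 * θ.cos ^ 3 - 3 * θ.cos)) * θ.cos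
      + 3 * ε * (3 * θ.sin - 4 * θ.sin ^ 3) * θ.sin,
   b + (ρ + ε * (4 * θ.cos ^ 3 - 3 * θ.cos)) * θ.sin
      - 3 * ε * (3 * θ.sin - 4 * θ.sin ^ 3) * θ.cos)

theorem touch_eq (ρ a b ε : ℝ) (θ : Real.Angle) :
    (touch ρ a b ε θ).1 * θ.cos + (touch ρ a b ε θ).2 * θ.sin = hf ρ a b ε θ := by
  have h := ang_sq θ
  simp only [touch, hf]
  linear_combination (ρ + ε * (4 * θ.cos ^ 3 - 3 * θ.cos)) * h

theorem touch_mem (ρ a b ε : ℝ) (hε : 8 * |ε| ≤ ρ) (θ : Real.Angle) :
    touch ρ a b ε θ ∈ bodyOf (hf ρ a b ε) := by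
  intro φ
  induction θ using Real.Angle.induction_on with
  | _ t =>
    induction φ using Real.Angle.induction_on with
    | _ f =>
      simp only [touch, hf, Real.Angle.cos_coe, Real.Angle.sin_coe]
      set δ := f - t with hδ
      have hf' : f = t + δ := by rw [hδ]; ring
      have h1 := Real.cos_sq_add_sin_sq t
      have h2 := Real.cos_sq_add_sin_sq δ
      have hc : Real.cos f = Real.cos t * Real.cos δ - Real.sin t * Real.sin δ := by
        rw [hf', Real.cos_add]
      have hs : Real.sin f = Real.sin t * Real.cos δ + Real.cos t * Real.sin δ := by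
        rw [hf', Real.sin_add]
      have h3 : 4 * Real.cos f ^ 3 - 3 * Real.cos f
          = (4 * Real.cos t ^ 3 - 3 * Real.cos t) * (4 * Real.cos δ ^ 3 - 3 * Real.cos δ)
            - (3 * Real.sin t - 4 * Real.sin t ^ 3) * (3 * Real.sin δ - 4 * Real.sin δ ^ 3) := by
        rw [← Real.cos_three_mul, ← Real.cos_three_mul, ← Real.cos_three_mul,
          ← Real.sin_three_mul, ← Real.sin_three_mul, ← Real.cos_add]
        congr 1
        rw [hf']
        ring
      have hW : |(4 * Real.cos t ^ 3 - 3 * Real.cos t) * Real.cos δ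
          - (3 * Real.sin t - 4 * Real.sin t ^ 3) * Real.sin δ| ≤ 1 := by
        rw [← Real.cos_three_mul, ← Real.sin_three_mul, ← Real.cos_add]
        exact Real.abs_cos_le_one _
      rw [h3, hs, hc]
      set c := Real.cos t
      set s := Real.sin t
      set C := Real.cos δ
      set S := Real.sin δ
      set W := (4 * c ^ 3 - 3 * c) * C - (3 * s - 4 * s ^ 3) * S with hWdef
      have hkey : ρ + a * (c * C - s * S) + b * (s * C + c * S) +
            ε * ((4 * c ^ 3 - 3 * c) * (4 * C ^ 3 - 3 * C)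
              - (3 * s - 4 * s ^ 3) * (3 * S - 4 * S ^ 3))
          - ((a + (ρ + ε * (4 * c ^ 3 - 3 * c)) * c + 3 * ε * (3 * s - 4 * s ^ 3) * s)
              * (c * C - s * S)
            + (b + (ρ + ε * (4 * c ^ 3 - 3 * c)) * s - 3 * ε * (3 * s - 4 * s ^ 3) * c)
              * (s * C + c * S))
          = ρ * (1 - C) - 4 * ε * S ^ 2 * W := by
        rw [hWdef]
        linear_combination
          (-(ρ + ε * (4 * c ^ 3 - 3 * c)) * C + 3 * ε * (3 * s - 4 * s ^ 3) * S) * h1
          + (4 * ε * (4 * c ^ 3 - 3 * c) * C) * h2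
      have hC1 : C ≤ 1 := Real.cos_le_one δ
      have hC2 : -1 ≤ C := Real.neg_one_le_cos δ
      have h4 : 4 * ε * S ^ 2 * W ≤ 4 * |ε| * S ^ 2 := by
        have : ε * W ≤ |ε| := by
          calc ε * W ≤ |ε * W| := le_abs_self _
            _ = |ε| * |W| := abs_mul _ _
            _ ≤ |ε| * 1 := mul_le_mul_of_nonneg_left hW (abs_nonneg _)
            _ = |ε| := mul_one _
        nlinarith [sq_nonneg S]
      have h5 : S ^ 2 = (1 - C) * (1 + C) := by linear_combination h2
      have h6 : 4 * |ε| * S ^ 2 ≤ ρ * (1 - C) := by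
        rw [h5]
        have h7 : 0 ≤ |ε| := abs_nonneg _
        have h8 : 0 ≤ 1 - C := by linarith
        have h9 : 4 * |ε| * (1 + C) ≤ ρ := by nlinarith
        nlinarith
      linarith

theorem supp_bodyOf (ρ a b ε : ℝ) (hε : 8 * |ε| ≤ ρ) (θ : Real.Angle) :
    supp (bodyOf (hf ρ a b ε)) θ = hf ρ a b ε θ := by
  unfold supp
  apply IsGreatest.csSup_eq
  constructor
  · exact ⟨touch ρ a b ε θ, touch_mem ρ a b ε hε θ, touch_eq ρ a b ε θ⟩
  · rintro _ ⟨p, hp, rfl⟩
    exact hp θ

theorem isCompact_bodyOf (ρ a b ε : ℝ) : IsCompact (bodyOf (hf ρ a b ε)) := by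
  have hclosed : IsClosed (bodyOf (hf ρ a b ε)) := by
    unfold bodyOf
    rw [Set.ofPred_forall]
    apply isClosed_iInter
    intro θ
    apply isClosed_le _ continuous_const
    fun_prop
  set M : ℝ := |ρ| + |a| + |b| + |ε| with hM
  have hbound : ∀ θ, hf ρ a b ε θ ≤ M := by
    intro θ
    unfold hf
    have h1 : a * θ.cos ≤ |a| := by
      calc a * θ.cos ≤ |a * θ.cos| := le_abs_self _
        _ = |a| * |θ.cos| := abs_mul _ _
        _ ≤ |a| * 1 := mul_le_mul_of_nonneg_left (acos_le θ) (abs_nonneg _)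
        _ = |a| := mul_one _
    have h2 : b * θ.sin ≤ |b| := by
      calc b * θ.sin ≤ |b * θ.sin| := le_abs_self _
        _ = |b| * |θ.sin| := abs_mul _ _
        _ ≤ |b| * 1 := mul_le_mul_of_nonneg_left (asin_le θ) (abs_nonneg _)
        _ = |b| := mul_one _
    have h3 : ε * (4 * θ.cos ^ 3 - 3 * θ.cos) ≤ |ε| := by
      calc ε * (4 * θ.cos ^ 3 - 3 * θ.cos) ≤ |ε * (4 * θ.cos ^ 3 - 3 * θ.cos)| := le_abs_self _
        _ = |ε| * |4 * θ.cos ^ 3 - 3 * θ.cos| := abs_mul _ _
        _ ≤ |ε| * 1 := mul_le_mul_of_nonneg_left (abs_C3 θ) (abs_nonneg _)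
        _ = |ε| := mul_one _
    have h4 : ρ ≤ |ρ| := le_abs_self _
    linarith
  apply IsCompact.of_isClosed_subset (isCompact_Icc (a := ((-M, -M) : ℝ × ℝ)) (b := (M, M)))
    hclosed
  intro p hp
  have e1 := (hp 0).trans (hbound 0)
  have e2 := (hp (Real.pi : Real.Angle)).trans (hbound _)
  have e3 := (hp ((Real.pi / 2 : ℝ) : Real.Angle)).trans (hbound _)
  have e4 := (hp ((-(Real.pi / 2) : ℝ) : Real.Angle)).trans (hbound _)
  simp only [Real.Angle.cos_zero, Real.Angle.sin_zero, Real.cos_pi, Real.sin_pi,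
    Real.Angle.cos_coe, Real.Angle.sin_coe, Real.cos_pi_div_two,
    Real.sin_pi_div_two, Real.cos_neg, Real.sin_neg] at e1 e2 e3 e4
  rw [Set.mem_Icc, Prod.le_def, Prod.le_def]
  refine ⟨⟨?_, ?_⟩, ⟨?_, ?_⟩⟩ <;> simp only <;> linarith

theorem convex_bodyOf (h : Real.Angle → ℝ) : Convex ℝ (bodyOf h) := by
  intro p hp q hq u v hu hv huv θ
  have h1 := hp θ
  have h2 := hq θ
  simp only [Prod.fst_add, Prod.snd_add, Prod.smul_fst, Prod.smul_snd, smul_eq_mul]
  calc (u * p.1 + v * q.1) * θ.cos + (u * p.2 + v * q.2) * θ.sin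
      = u * (p.1 * θ.cos + p.2 * θ.sin) + v * (q.1 * θ.cos + q.2 * θ.sin) := by ring
    _ ≤ u * h θ + v * h θ :=
        add_le_add (mul_le_mul_of_nonneg_left h1 hu) (mul_le_mul_of_nonneg_left h2 hv)
    _ = h θ := by rw [← add_mul, huv, one_mul]

theorem deriv_at_touch (ρ a b ε : ℝ) (p : ℝ × ℝ) (hp : p ∈ bodyOf (hf ρ a b ε))
    (θ : Real.Angle) (he : p.1 * θ.cos + p.2 * θ.sin = hf ρ a b ε θ) :
    dhf a b ε θ = p.2 * θ.cos - p.1 * θ.sin := by
  induction θ using Real.Angle.induction_on with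
  | _ t =>
    set G : ℝ → ℝ := fun f => ρ + a * Real.cos f + b * Real.sin f
      + ε * (4 * Real.cos f ^ 3 - 3 * Real.cos f) - (p.1 * Real.cos f + p.2 * Real.sin f) with hG
    have hmin : IsLocalMin G t := by
      apply Filter.Eventually.of_forall
      intro f
      have h1 := hp (f : Real.Angle)
      simp only [hf, Real.Angle.cos_coe, Real.Angle.sin_coe] at h1 he
      simp only [hG]
      linarith
    have hd : HasDerivAt G (a * (-Real.sin t) + b * Real.cos t
        + ε * (4 * (3 * Real.cos t ^ 2 * (-Real.sin t)) - 3 * (-Real.sin t))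
        - (p.1 * (-Real.sin t) + p.2 * Real.cos t)) t := by
      have hc := Real.hasDerivAt_cos t
      have hs := Real.hasDerivAt_sin t
      have hc3 : HasDerivAt (fun f => Real.cos f ^ 3) (3 * Real.cos t ^ 2 * (-Real.sin t)) t := by
        have h3 := hc.fun_pow 3
        simpa using h3
      have := ((((hasDerivAt_const t ρ).add (hc.const_mul a)).add (hs.const_mul b)).add
        (((hc3.const_mul 4).sub (hc.const_mul 3)).const_mul ε)).sub
        ((hc.const_mul p.1).add (hs.const_mul p.2))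
      refine HasDerivAt.congr_deriv this ?_
      ring
    have h0 := hmin.hasDerivAt_eq_zero hd
    simp only [dhf, Real.Angle.cos_coe, Real.Angle.sin_coe]
    linear_combination h0

/-! ### The chain of bodies -/

noncomputable def rhoF (L i : ℕ) : ℝ :=
  if i = 0 then 51 / 2 else if i ≤ L then 24 + 4 * (i : ℝ) else 24 + 4 * (L : ℝ) + 5 / 2

noncomputable def aF (L : ℕ) (c : Real.Angle) (i : ℕ) : ℝ :=
  if i = 0 then -(3 / 2) else if i ≤ L then 0 else -(3 / 2) * c.cos

noncomputable def bF (L : ℕ) (c : Real.Angle) (i : ℕ) : ℝ :=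
  if i = 0 then 0 else if i ≤ L then 0 else -(3 / 2) * c.sin

noncomputable def eF (L i : ℕ) : ℝ :=
  if i = 0 then 0 else if i ≤ L then 3 * (-1) ^ i else 0

/-- The support function of the `i`-th body of the chain; `c` is the rotation of the last one. -/
noncomputable def H (L : ℕ) (c : Real.Angle) (i : ℕ) : Real.Angle → ℝ :=
  hf (rhoF L i) (aF L c i) (bF L c i) (eF L i)

noncomputable def Bd (L : ℕ) (c : Real.Angle) (i : ℕ) : Set (ℝ × ℝ) := bodyOf (H L c i)

noncomputable def C3 (θ : Real.Angle) : ℝ := 4 * θ.cos ^ 3 - 3 * θ.cos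

noncomputable def S3 (θ : Real.Angle) : ℝ := θ.sin * (4 * θ.cos ^ 2 - 1)

theorem C3S3 (θ : Real.Angle) : C3 θ ^ 2 + S3 θ ^ 2 = 1 := by
  have h := ang_sq θ
  have h' : θ.sin ^ 2 = 1 - θ.cos ^ 2 := by linarith
  have : C3 θ ^ 2 + S3 θ ^ 2 = (4 * θ.cos ^ 3 - 3 * θ.cos) ^ 2
      + θ.sin ^ 2 * (4 * θ.cos ^ 2 - 1) ^ 2 := by
    unfold C3 S3
    ring
  rw [this, h']
  ring

theorem C3_le (θ : Real.Angle) : C3 θ ≤ 1 := (abs_le.mp (abs_C3 θ)).2

theorem neg_one_le_C3 (θ : Real.Angle) : -1 ≤ C3 θ := (abs_le.mp (abs_C3 θ)).1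

theorem cos_sub' (θ c : Real.Angle) : (θ - c).cos = θ.cos * c.cos + θ.sin * c.sin := by
  rw [sub_eq_add_neg, Real.Angle.cos_add, Real.Angle.cos_neg, Real.Angle.sin_neg]
  ring

theorem sin_sub' (θ c : Real.Angle) : (θ - c).sin = θ.sin * c.cos - θ.cos * c.sin := by
  rw [sub_eq_add_neg, Real.Angle.sin_add, Real.Angle.cos_neg, Real.Angle.sin_neg]
  ring

theorem H_zero (L : ℕ) (c θ : Real.Angle) : H L c 0 θ = 51 / 2 - 3 / 2 * θ.cos := by
  simp only [H, hf, rhoF, aF, bF, eF, if_true]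
  ring

theorem H_mid (L : ℕ) (c : Real.Angle) (i : ℕ) (h1 : 1 ≤ i) (h2 : i ≤ L) (θ : Real.Angle) :
    H L c i θ = 24 + 4 * i + 3 * (-1) ^ i * C3 θ := by
  have h0 : i ≠ 0 := by omega
  simp only [H, hf, rhoF, aF, bF, eF, if_neg h0, if_pos h2, C3]
  ring

theorem H_top (L : ℕ) (c : Real.Angle) (θ : Real.Angle) :
    H L c (L + 1) θ = 24 + 4 * L + 5 / 2 - 3 / 2 * (θ - c).cos := by
  have h0 : L + 1 ≠ 0 := by omega
  have h1 : ¬ (L + 1 ≤ L) := by omega
  simp only [H, hf, rhoF, aF, bF, eF, if_neg h0, if_neg h1, cos_sub']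
  ring

theorem neg_one_pow_cases (i : ℕ) : (-1 : ℝ) ^ i = 1 ∨ (-1 : ℝ) ^ i = -1 :=
  neg_one_pow_eq_or ℝ i

theorem eps_ok (L : ℕ) (i : ℕ) : 8 * |eF L i| ≤ rhoF L i := by
  unfold eF rhoF
  split_ifs with h0 h1
  · norm_num
  · have : |3 * (-1 : ℝ) ^ i| = 3 := by
      rcases neg_one_pow_cases i with h | h <;> rw [h] <;> norm_num
    rw [this]
    have : (0 : ℝ) ≤ i := by positivity
    linarith
  · have : (0 : ℝ) ≤ L := by positivity
    rw [abs_zero]
    linarith

theorem supp_Bd (L : ℕ) (c : Real.Angle) (i : ℕ) (θ : Real.Angle) :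
    supp (Bd L c i) θ = H L c i θ :=
  supp_bodyOf _ _ _ _ (eps_ok L i) θ

theorem level_low (L : ℕ) (c : Real.Angle) (e i : ℕ) (he : e ≤ L) (hi : i < e)
    (θ : Real.Angle) : H L c i θ ≤ 24 + 4 * e - 1 := by
  rcases Nat.eq_zero_or_pos i with h0 | h0
  · subst h0
    rw [H_zero]
    have h1 := (abs_le.mp (acos_le θ)).1
    have h2 : (1 : ℝ) ≤ e := by exact_mod_cast hi
    linarith
  · rw [H_mid L c i h0 (by omega)]
    have h1 : (i : ℝ) + 1 ≤ e := by exact_mod_cast hi
    have h2 := C3_le θ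
    have h3 := neg_one_le_C3 θ
    rcases neg_one_pow_cases i with h | h <;> rw [h] <;> linarith

theorem level_high (L : ℕ) (c : Real.Angle) (e i : ℕ) (hi : e < i) (hi' : i ≤ L + 1)
    (θ : Real.Angle) : 24 + 4 * (e : ℝ) + 1 ≤ H L c i θ := by
  rcases Nat.lt_or_ge L i with h0 | h0
  · have : i = L + 1 := by omega
    subst this
    rw [H_top]
    have h1 := (abs_le.mp (acos_le (θ - c))).2
    have h2 : (e : ℝ) ≤ L := by
      have : e ≤ L := by omega
      exact_mod_cast this
    linarith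
  · rw [H_mid L c i (by omega) h0]
    have h1 : (e : ℝ) + 1 ≤ i := by exact_mod_cast hi
    have h2 := C3_le θ
    have h3 := neg_one_le_C3 θ
    rcases neg_one_pow_cases i with h | h <;> rw [h] <;> linarith

theorem H_far (L : ℕ) (c : Real.Angle) (i j : ℕ) (hij : i + 2 ≤ j) (hj : j ≤ L + 1)
    (θ : Real.Angle) : H L c i θ < H L c j θ := by
  have h1 := level_low L c (i + 1) i (by omega) (by omega) θ
  have h2 := level_high L c (i + 1) j (by omega) hj θ
  linarith

/-- Angles whose triple is zero. -/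
def Tri (c : Real.Angle) : Prop := (∀ θ, C3 (θ - c) = C3 θ) ∧ (∀ θ, S3 (θ - c) = S3 θ)

theorem tri_zero : Tri 0 := by
  constructor <;> intro θ <;> rw [sub_zero]

theorem tri_third : Tri ((2 * Real.pi / 3 : ℝ) : Real.Angle) := by
  have hS : ∀ x : ℝ, Real.sin x * (4 * Real.cos x ^ 2 - 1) = Real.sin (3 * x) := by
    intro x
    rw [Real.sin_three_mul]
    have := Real.cos_sq_add_sin_sq x
    have h2 : Real.cos x ^ 2 = 1 - Real.sin x ^ 2 := by linarith
    rw [h2]
    ring
  constructor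
  · intro θ
    induction θ using Real.Angle.induction_on with
    | _ t =>
      unfold C3
      rw [← Real.Angle.coe_sub, Real.Angle.cos_coe, Real.Angle.cos_coe, ← Real.cos_three_mul,
        ← Real.cos_three_mul]
      have : 3 * (t - 2 * Real.pi / 3) = 3 * t - 2 * Real.pi := by ring
      rw [this, Real.cos_sub_two_pi]
  · intro θ
    induction θ using Real.Angle.induction_on with
    | _ t =>
      unfold S3
      rw [← Real.Angle.coe_sub, Real.Angle.cos_coe, Real.Angle.cos_coe, Real.Angle.sin_coe,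
        Real.Angle.sin_coe, hS, hS]
      have : 3 * (t - 2 * Real.pi / 3) = 3 * t - 2 * Real.pi := by ring
      rw [this, Real.sin_sub_two_pi]

/-! ### Zero sets -/

theorem ang_eq_of (θ ψ : Real.Angle) (h1 : θ.cos = ψ.cos) (h2 : θ.sin = ψ.sin) : θ = ψ := by
  induction θ using Real.Angle.induction_on with
  | _ t =>
    induction ψ using Real.Angle.induction_on with
    | _ s => exact Real.Angle.cos_sin_inj h1 h2

theorem zero_set (k0 k1 k3 : ℝ) (hk : k3 ≠ 0) (c : Real.Angle) :
    {θ : Real.Angle | k0 + k1 * (θ - c).cos + k3 * (θ - c).cos ^ 3 = 0}.Finite ∧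
      {θ : Real.Angle | k0 + k1 * (θ - c).cos + k3 * (θ - c).cos ^ 3 = 0}.ncard ≤ 6 := by
  classical
  set P : Polynomial ℝ := Polynomial.C k0 + Polynomial.C k1 * Polynomial.X
    + Polynomial.C k3 * Polynomial.X ^ 3 with hP
  have hcoeff : P.coeff 3 = k3 := by
    rw [hP]
    simp
  have hP0 : P ≠ 0 := by
    intro h
    rw [h, Polynomial.coeff_zero] at hcoeff
    exact hk hcoeff.symm
  have hdeg : P.natDegree ≤ 3 := by
    rw [hP]
    compute_degree
  set T : Finset (ℝ × Bool) := P.roots.toFinset ×ˢ Finset.univ with hT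
  have hTcard : T.card ≤ 6 := by
    rw [hT, Finset.card_product]
    have h1 : P.roots.toFinset.card ≤ 3 :=
      (Multiset.toFinset_card_le _).trans ((Polynomial.card_roots' P).trans hdeg)
    have h2 : (Finset.univ : Finset Bool).card = 2 := rfl
    rw [h2]
    omega
  let f : Real.Angle → ℝ × Bool := fun θ => ((θ - c).cos, decide (0 ≤ (θ - c).sin))
  have hmaps : ∀ θ ∈ {θ : Real.Angle | k0 + k1 * (θ - c).cos + k3 * (θ - c).cos ^ 3 = 0},
      f θ ∈ (T : Set (ℝ × Bool)) := by
    intro θ hθ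
    rw [Finset.mem_coe, hT, Finset.mem_product]
    refine ⟨?_, Finset.mem_univ _⟩
    rw [Multiset.mem_toFinset, Polynomial.mem_roots hP0, Polynomial.IsRoot.def, hP]
    simpa using hθ
  have hinj : Set.InjOn f
      {θ : Real.Angle | k0 + k1 * (θ - c).cos + k3 * (θ - c).cos ^ 3 = 0} := by
    intro θ _ ψ _ h
    simp only [f, Prod.mk.injEq, decide_eq_decide] at h
    obtain ⟨h1, h2⟩ := h
    have e1 := ang_sq (θ - c)
    have e2 := ang_sq (ψ - c)
    have h3 : (θ - c).sin ^ 2 = (ψ - c).sin ^ 2 := by rw [h1] at e1; linarith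
    have h4 : (θ - c).sin = (ψ - c).sin := by
      rcases sq_eq_sq_iff_eq_or_eq_neg.mp h3 with h5 | h5
      · exact h5
      · by_cases h6 : 0 ≤ (θ - c).sin
        · have h7 := h2.mp h6
          linarith
        · have h7 : ¬ 0 ≤ (ψ - c).sin := fun h => h6 (h2.mpr h)
          push Not at h6 h7
          linarith
    have := ang_eq_of _ _ h1 h4
    exact sub_left_injective this
  constructor
  · exact Set.Finite.of_injOn hmaps hinj (Finset.finite_toSet T)
  · calc Set.ncard {θ : Real.Angle | k0 + k1 * (θ - c).cos + k3 * (θ - c).cos ^ 3 = 0}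
        ≤ Set.ncard (T : Set (ℝ × Bool)) :=
          Set.ncard_le_ncard_of_injOn f hmaps hinj (Finset.finite_toSet T)
      _ = T.card := Set.ncard_coe_finset T
      _ ≤ 6 := hTcard

/-- The difference of consecutive support functions is a cubic polynomial in a cosine, and the
crossings are transversal. -/
theorem consecutive (L : ℕ) (hL : Odd L) (c : Real.Angle) (hc : Tri c) (i : ℕ) (hi : i ≤ L) :
    (∃ (k0 k1 k3 : ℝ) (c' : Real.Angle), k3 ≠ 0 ∧ ∀ θ, H L c (i + 1) θ - H L c i θ
      = k0 + k1 * (θ - c').cos + k3 * (θ - c').cos ^ 3) ∧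
    (∀ θ, H L c i θ = H L c (i + 1) θ →
      dhf (aF L c i) (bF L c i) (eF L i) θ
        ≠ dhf (aF L c (i + 1)) (bF L c (i + 1)) (eF L (i + 1)) θ) := by
  have hLpos : 1 ≤ L := hL.pos
  have hLpow : (-1 : ℝ) ^ L = -1 := hL.neg_one_pow
  rcases Nat.eq_zero_or_pos i with h0 | h0
  · subst h0
    constructor
    · refine ⟨5 / 2, 21 / 2, -12, 0, by norm_num, fun θ => ?_⟩
      rw [H_zero, zero_add, H_mid L c 1 le_rfl hLpos, sub_zero]
      unfold C3
      push_cast
      ring
    · intro θ hθ hd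
      rw [H_zero, zero_add, H_mid L c 1 le_rfl hLpos] at hθ
      simp only [dhf, aF, bF, eF, if_true, zero_add, one_ne_zero, if_false, if_pos hLpos] at hd
      unfold C3 at hθ
      push_cast at hθ
      have e1 : 24 * θ.cos ^ 3 - 21 * θ.cos - 5 = 0 := by linarith
      have e2 : θ.sin * (36 * θ.cos ^ 2 - 21 / 2) = 0 := by linear_combination -hd
      rcases mul_eq_zero.mp e2 with h | h
      · have h3 := ang_sq θ
        rw [h] at h3
        have h4 : (θ.cos - 1) * (θ.cos + 1) = 0 := by linear_combination h3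
        rcases mul_eq_zero.mp h4 with h5 | h5
        · have : θ.cos = 1 := by linarith
          rw [this] at e1
          norm_num at e1
        · have : θ.cos = -1 := by linarith
          rw [this] at e1
          norm_num at e1
      · have h5 : θ.cos ^ 2 = 7 / 24 := by linarith
        have h6 : θ.cos ^ 3 = θ.cos * (7 / 24) := by rw [← h5]; ring
        rw [h6] at e1
        have h7 : θ.cos = -5 / 14 := by linarith
        rw [h7] at h5
        norm_num at h5
  · rcases Nat.lt_or_ge i L with h1 | h1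
    · have hpow : (-1 : ℝ) ^ (i + 1) = -(-1) ^ i := by rw [pow_succ]; ring
      constructor
      · refine ⟨4, 18 * (-1) ^ i, -24 * (-1) ^ i, 0, ?_, fun θ => ?_⟩
        · rcases neg_one_pow_cases i with h | h <;> rw [h] <;> norm_num
        · rw [H_mid L c i h0 hi, H_mid L c (i + 1) (by omega) h1, hpow, sub_zero]
          unfold C3
          push_cast
          ring
      · intro θ hθ hd
        rw [H_mid L c i h0 hi, H_mid L c (i + 1) (by omega) h1, hpow] at hθ
        have hi0 : i ≠ 0 := by omega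
        have hi1 : i + 1 ≠ 0 := by omega
        have hi2 : i + 1 ≤ L := h1
        simp only [dhf, aF, bF, eF, if_neg hi0, if_neg hi1, if_pos hi, if_pos hi2, hpow] at hd
        have e2 : (-1 : ℝ) ^ i * S3 θ = 0 := by
          unfold S3
          linear_combination -(1 / 18) * hd
        have e3 : S3 θ = 0 := by
          rcases neg_one_pow_cases i with h | h <;> rw [h] at e2 <;> linarith
        have e4 := C3S3 θ
        rw [e3] at e4
        push_cast at hθ
        have e5 : (-1 : ℝ) ^ i * C3 θ = 2 / 3 := by linarith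
        have e6 : C3 θ ^ 2 = 4 / 9 := by
          have h7 : ((-1 : ℝ) ^ i) ^ 2 = 1 := by
            rcases neg_one_pow_cases i with h | h <;> rw [h] <;> norm_num
          calc C3 θ ^ 2 = ((-1 : ℝ) ^ i) ^ 2 * C3 θ ^ 2 := by rw [h7, one_mul]
            _ = ((-1 : ℝ) ^ i * C3 θ) ^ 2 := by ring
            _ = 4 / 9 := by rw [e5]; norm_num
        rw [e6] at e4
        norm_num at e4
    · have hiL : i = L := by omega
      subst hiL
      constructor
      · refine ⟨5 / 2, -21 / 2, 12, c, by norm_num, fun θ => ?_⟩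
        rw [H_top, H_mid i c i h0 le_rfl, hLpow, ← hc.1 θ]
        unfold C3
        ring
      · intro θ hθ hd
        rw [H_top, H_mid i c i h0 le_rfl, hLpow, ← hc.1 θ] at hθ
        have hi0 : i ≠ 0 := by omega
        have hi1 : i + 1 ≠ 0 := by omega
        have hi2 : ¬ (i + 1 ≤ i) := by omega
        simp only [dhf, aF, bF, eF, if_neg hi0, if_neg hi1, if_pos le_rfl, if_neg hi2, hLpow]
          at hd
        have hS : θ.sin * (4 * θ.cos ^ 2 - 1) = (θ - c).sin * (4 * (θ - c).cos ^ 2 - 1) :=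
          (hc.2 θ).symm
        have hsin : (θ - c).sin = θ.sin * c.cos - θ.cos * c.sin := sin_sub' θ c
        unfold C3 at hθ
        have e1 : 24 * (θ - c).cos ^ 3 - 21 * (θ - c).cos + 5 = 0 := by linarith
        have e2 : (θ - c).sin * (36 * (θ - c).cos ^ 2 - 21 / 2) = 0 := by
          linear_combination hd - 9 * hS - (3 / 2) * hsin
        set α := θ - c
        rcases mul_eq_zero.mp e2 with h | h
        · have h3 := ang_sq α
          rw [h] at h3
          have h4 : (α.cos - 1) * (α.cos + 1) = 0 := by linear_combination h3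
          rcases mul_eq_zero.mp h4 with h5 | h5
          · have : α.cos = 1 := by linarith
            rw [this] at e1
            norm_num at e1
          · have : α.cos = -1 := by linarith
            rw [this] at e1
            norm_num at e1
        · have h5 : α.cos ^ 2 = 7 / 24 := by linarith
          have h6 : α.cos ^ 3 = α.cos * (7 / 24) := by rw [← h5]; ring
          rw [h6] at e1
          have h7 : α.cos = 5 / 14 := by linarith
          rw [h7] at h5
          norm_num at h5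

theorem tangents_Bd (L : ℕ) (c : Real.Angle) (i j : ℕ) :
    tangents (Bd L c i) (Bd L c j) = {θ | H L c i θ = H L c j θ} := by
  ext θ
  simp only [tangents, Set.mem_ofPred_eq, supp_Bd]

theorem tangents_ok (L : ℕ) (hL : Odd L) (c : Real.Angle) (hc : Tri c) (i j : ℕ)
    (hi : i ≤ L + 1) (hj : j ≤ L + 1) (hij : i ≠ j) :
    (tangents (Bd L c i) (Bd L c j)).Finite ∧ (tangents (Bd L c i) (Bd L c j)).ncard ≤ 6 := by
  have key : ∀ i j : ℕ, i < j → j ≤ L + 1 →
      (tangents (Bd L c i) (Bd L c j)).Finite ∧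
        (tangents (Bd L c i) (Bd L c j)).ncard ≤ 6 := by
    intro i j hij hj
    rw [tangents_Bd]
    rcases Nat.lt_or_ge (i + 1) j with h | h
    · have : {θ | H L c i θ = H L c j θ} = ∅ := by
        ext θ
        simp only [Set.mem_ofPred_eq, Set.mem_empty_iff_false, iff_false]
        exact (H_far L c i j h hj θ).ne
      rw [this]
      simp
    · have hj' : j = i + 1 := by omega
      subst hj'
      obtain ⟨⟨k0, k1, k3, c', hk, hform⟩, -⟩ := consecutive L hL c hc i (by omega)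
      have : {θ | H L c i θ = H L c (i + 1) θ}
          = {θ : Real.Angle | k0 + k1 * (θ - c').cos + k3 * (θ - c').cos ^ 3 = 0} := by
        ext θ
        simp only [Set.mem_ofPred_eq]
        rw [← hform θ, sub_eq_zero]
        exact eq_comm
      rw [this]
      exact zero_set k0 k1 k3 hk c'
  rcases Nat.lt_or_ge i j with h | h
  · exact key i j h hj
  · have h1 := key j i (by omega) hi
    have h2 : tangents (Bd L c i) (Bd L c j) = tangents (Bd L c j) (Bd L c i) := by
      ext θ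
      simp only [tangents, Set.mem_ofPred_eq]
      exact eq_comm
    rw [h2]
    exact h1

theorem isArr (L : ℕ) (hL : Odd L) (c : Real.Angle) (hc : Tri c) :
    IsArrangement (fun i : Fin (L + 2) => Bd L c i) := by
  refine ⟨?_, ?_, ?_, ?_⟩
  · intro i
    exact ⟨isCompact_bodyOf _ _ _ _, convex_bodyOf _, ⟨_, touch_mem _ _ _ _ (eps_ok L i) 0⟩⟩
  · intro i j hij θ hθ p hp he
    have hθ' : H L c i θ = H L c j θ := by
      rw [tangents_Bd] at hθ
      exact hθ
    rw [supp_Bd] at he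
    have d1 := deriv_at_touch _ _ _ _ p hp.1 θ he
    have d2 := deriv_at_touch _ _ _ _ p hp.2 θ (he.trans hθ')
    have hij' : (i : ℕ) ≠ j := fun h => hij (Fin.ext h)
    have key : ∀ i j : ℕ, i < j → j ≤ L + 1 → H L c i θ = H L c j θ →
        dhf (aF L c i) (bF L c i) (eF L i) θ ≠ dhf (aF L c j) (bF L c j) (eF L j) θ := by
      intro i j hij hj hθ
      rcases Nat.lt_or_ge (i + 1) j with h | h
      · exact absurd hθ (H_far L c i j h hj θ).ne
      · have hj' : j = i + 1 := by omega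
        subst hj'
        exact (consecutive L hL c hc i (by omega)).2 θ hθ
    rcases Nat.lt_or_ge (i : ℕ) j with h | h
    · exact key i j h (by omega) hθ' (d1.trans d2.symm)
    · exact key j i (by omega) (by omega) hθ'.symm (d2.trans d1.symm)
  · intro i j k hij hjk hik θ h1 h2
    rw [tangents_Bd] at h1 h2
    have h1' : H L c i θ = H L c j θ := h1
    have h2' : H L c j θ = H L c k θ := h2
    have hij' : (i : ℕ) ≠ j := fun h => hij (Fin.ext h)
    have hjk' : (j : ℕ) ≠ k := fun h => hjk (Fin.ext h)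
    have hik' : (i : ℕ) ≠ k := fun h => hik (Fin.ext h)
    have hi := i.isLt
    have hj := j.isLt
    have hk := k.isLt
    have hcases : (i : ℕ) + 2 ≤ j ∨ (j : ℕ) + 2 ≤ i ∨ (j : ℕ) + 2 ≤ k ∨ (k : ℕ) + 2 ≤ j ∨
        (i : ℕ) + 2 ≤ k ∨ (k : ℕ) + 2 ≤ i := by omega
    rcases hcases with h | h | h | h | h | h
    · exact (H_far L c i j h (by omega) θ).ne h1'
    · exact (H_far L c j i h (by omega) θ).ne h1'.symm
    · exact (H_far L c j k h (by omega) θ).ne h2'
    · exact (H_far L c k j h (by omega) θ).ne h2'.symm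
    · exact (H_far L c i k h (by omega) θ).ne (h1'.trans h2')
    · exact (H_far L c k i h (by omega) θ).ne (h1'.trans h2').symm
  · intro i j hij
    have hij' : (i : ℕ) ≠ j := fun h => hij (Fin.ext h)
    exact (tangents_ok L hL c hc i j (by omega) (by omega) hij').1

/-! ### The two arrangements are not equivalent -/

/-- The `i`-th curve of the common part. -/
def Kc (L i : ℕ) : Set Cyl := {q | q.2 = H L 0 i q.1}

noncomputable def xs (i : ℕ) (q : Cyl) : ℝ := -(-1) ^ i * q.1.cos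

theorem xs_succ (i : ℕ) (q : Cyl) : xs (i + 1) q = -xs i q := by
  unfold xs
  rw [pow_succ]
  ring

theorem xs_le (i : ℕ) (q : Cyl) : |xs i q| ≤ 1 := by
  unfold xs
  rw [abs_mul]
  have : |-(-1 : ℝ) ^ i| = 1 := by
    rcases neg_one_pow_cases i with h | h <;> rw [h] <;> norm_num
  rw [this, one_mul]
  exact acos_le _

theorem cont_H (L : ℕ) (c : Real.Angle) (i : ℕ) : Continuous (H L c i) := by
  unfold H hf
  have h1 : Continuous fun θ : Real.Angle => θ.cos := Real.Angle.continuous_cos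
  have h2 : Continuous fun θ : Real.Angle => θ.sin := Real.Angle.continuous_sin
  fun_prop

theorem cross_iff (L i : ℕ) (h1 : 1 ≤ i) (h2 : i + 1 ≤ L) (q : Cyl) :
    (q ∈ Kc L i ∧ q ∈ Kc L (i + 1)) ↔
      (q ∈ Kc L i ∧ 12 * xs i q ^ 3 - 9 * xs i q + 2 = 0) := by
  constructor
  · rintro ⟨ha, hb⟩
    refine ⟨ha, ?_⟩
    have ha' : q.2 = H L 0 i q.1 := ha
    have hb' : q.2 = H L 0 (i + 1) q.1 := hb
    rw [ha', H_mid L 0 i h1 (by omega), H_mid L 0 (i + 1) (by omega) h2] at hb'
    unfold xs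
    unfold C3 at hb'
    push_cast at hb'
    rw [pow_succ (-1 : ℝ) i] at hb'
    rcases neg_one_pow_cases i with h | h <;> rw [h] at hb' ⊢ <;> linarith
  · rintro ⟨ha, hb⟩
    refine ⟨ha, ?_⟩
    have ha' : q.2 = H L 0 i q.1 := ha
    show q.2 = H L 0 (i + 1) q.1
    rw [ha', H_mid L 0 i h1 (by omega), H_mid L 0 (i + 1) (by omega) h2]
    unfold xs at hb
    unfold C3
    push_cast
    rw [pow_succ (-1 : ℝ) i]
    rcases neg_one_pow_cases i with h | h <;> rw [h] at hb ⊢ <;> linarith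

theorem cross_iff' (L i : ℕ) (h1 : 1 ≤ i) (h2 : i + 1 ≤ L) (q : Cyl) :
    (q ∈ Kc L i ∧ q ∈ Kc L (i + 1)) ↔
      (q ∈ Kc L (i + 1) ∧ 12 * xs (i + 1) q ^ 3 - 9 * xs (i + 1) q - 2 = 0) := by
  rw [xs_succ]
  constructor
  · rintro ⟨ha, hb⟩
    refine ⟨hb, ?_⟩
    have := ((cross_iff L i h1 h2 q).mp ⟨ha, hb⟩).2
    linarith
  · rintro ⟨hb, he⟩
    refine ⟨?_, hb⟩
    have hb' : q.2 = H L 0 (i + 1) q.1 := hb
    show q.2 = H L 0 i q.1
    rw [hb', H_mid L 0 i h1 (by omega), H_mid L 0 (i + 1) (by omega) h2]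
    unfold xs at he
    unfold C3
    push_cast
    rw [pow_succ (-1 : ℝ) i]
    rcases neg_one_pow_cases i with h | h <;> rw [h] at he ⊢ <;> linarith

theorem half_pos : IsPreconnected {θ : Real.Angle | 0 < θ.cos} := by
  have : {θ : Real.Angle | 0 < θ.cos}
      = (fun x : ℝ => (x : Real.Angle)) '' Set.Ioo (-(Real.pi / 2)) (Real.pi / 2) := by
    ext θ
    simp only [Set.mem_ofPred_eq, Set.mem_image, Set.mem_Ioo]
    constructor
    · intro h
      rw [Real.Angle.cos_pos_iff_abs_toReal_lt_pi_div_two, abs_lt] at h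
      exact ⟨θ.toReal, h, Real.Angle.coe_toReal θ⟩
    · rintro ⟨x, hx, rfl⟩
      rw [Real.Angle.cos_coe]
      exact Real.cos_pos_of_mem_Ioo hx
  rw [this]
  exact isPreconnected_Ioo.image _ Real.Angle.continuous_coe.continuousOn

theorem half_neg : IsPreconnected {θ : Real.Angle | θ.cos < 0} := by
  have : {θ : Real.Angle | θ.cos < 0}
      = (fun θ : Real.Angle => θ + (Real.pi : Real.Angle)) '' {θ : Real.Angle | 0 < θ.cos} := by
    ext θ
    simp only [Set.mem_ofPred_eq, Set.mem_image]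
    constructor
    · intro h
      refine ⟨θ - (Real.pi : Real.Angle), ?_, by abel⟩
      rw [cos_sub', Real.Angle.cos_coe_pi, Real.Angle.sin_coe_pi]
      linarith
    · rintro ⟨x, hx, rfl⟩
      rw [Real.Angle.cos_add_pi]
      linarith
  rw [this]
  exact half_pos.image _ (by fun_prop)

/-- The part of the `i`-th curve with positive `xs`. -/
def halfC (L i : ℕ) : Set Cyl := {q | q ∈ Kc L i ∧ 0 < xs i q}

theorem halfC_conn (L i : ℕ) : IsPreconnected (halfC L i) := by
  have hset : IsPreconnected {θ : Real.Angle | 0 < -(-1 : ℝ) ^ i * θ.cos} := by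
    rcases neg_one_pow_cases i with h | h
    · have : {θ : Real.Angle | 0 < -(-1 : ℝ) ^ i * θ.cos} = {θ : Real.Angle | θ.cos < 0} := by
        ext θ
        simp only [Set.mem_ofPred_eq, h]
        constructor <;> intro h' <;> linarith
      rw [this]
      exact half_neg
    · have : {θ : Real.Angle | 0 < -(-1 : ℝ) ^ i * θ.cos} = {θ : Real.Angle | 0 < θ.cos} := by
        ext θ
        simp only [Set.mem_ofPred_eq, h]
        constructor <;> intro h' <;> linarith
      rw [this]
      exact half_pos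
  have : halfC L i = (fun θ : Real.Angle => ((θ, H L 0 i θ) : Cyl)) ''
      {θ : Real.Angle | 0 < -(-1 : ℝ) ^ i * θ.cos} := by
    ext q
    simp only [halfC, Kc, xs, Set.mem_ofPred_eq, Set.mem_image]
    constructor
    · rintro ⟨h1, h2⟩
      exact ⟨q.1, h2, by rw [← h1]⟩
    · rintro ⟨θ, h1, rfl⟩
      exact ⟨rfl, h1⟩
  rw [this]
  apply hset.image
  have := cont_H L 0 i
  exact (continuous_id.prodMk this).continuousOn

theorem cont_xs (i : ℕ) : Continuous (xs i) := by
  unfold xs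
  have h1 : Continuous fun θ : Real.Angle => θ.cos := Real.Angle.continuous_cos
  fun_prop

def Pres (L : ℕ) (ψ : Cyl ≃ₜ Cyl) : Prop := ∀ i ≤ L, ∀ q, ψ q ∈ Kc L i ↔ q ∈ Kc L i

def TT (L : ℕ) (ψ : Cyl ≃ₜ Cyl) (i : ℕ) : Prop :=
  ∀ q, q ∈ Kc L i → q ∈ Kc L (i + 1) → 0 < xs i q → 0 < xs i (ψ q)

theorem pres_symm (L : ℕ) (ψ : Cyl ≃ₜ Cyl) (h : Pres L ψ) : Pres L ψ.symm := by
  intro i hi q
  have := h i hi (ψ.symm q)
  rw [Homeomorph.apply_symm_apply] at this
  exact this.symm

theorem exists_point (L i : ℕ) (t : ℝ) (h1 : -1 ≤ t) (h2 : t ≤ 1) :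
    ∃ q : Cyl, q ∈ Kc L i ∧ xs i q = t := by
  rcases neg_one_pow_cases i with h | h
  · refine ⟨(((Real.arccos (-t) : ℝ) : Real.Angle), H L 0 i ((Real.arccos (-t) : ℝ) : Real.Angle)),
      rfl, ?_⟩
    unfold xs
    rw [h, Real.Angle.cos_coe, Real.cos_arccos (by linarith) (by linarith)]
    ring
  · refine ⟨(((Real.arccos t : ℝ) : Real.Angle), H L 0 i ((Real.arccos t : ℝ) : Real.Angle)),
      rfl, ?_⟩
    unfold xs
    rw [h, Real.Angle.cos_coe, Real.cos_arccos h1 h2]
    ring

theorem root_exists (f : ℝ → ℝ) (hf : Continuous f) (a b : ℝ) (hab : a ≤ b)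
    (h : (f a < 0 ∧ 0 < f b) ∨ (0 < f a ∧ f b < 0)) : ∃ r, a < r ∧ r < b ∧ f r = 0 := by
  rcases h with ⟨h1, h2⟩ | ⟨h1, h2⟩
  · obtain ⟨r, hr, hr0⟩ := intermediate_value_Ioo hab hf.continuousOn ⟨h1, h2⟩
    exact ⟨r, hr.1, hr.2, hr0⟩
  · obtain ⟨r, hr, hr0⟩ := intermediate_value_Ioo' hab hf.continuousOn ⟨h2, h1⟩
    exact ⟨r, hr.1, hr.2, hr0⟩

theorem mainL (L : ℕ) (ψ : Cyl ≃ₜ Cyl) (hψ : Pres L ψ) (i : ℕ) (h1 : 1 ≤ i) (h2 : i + 1 ≤ L)
    (hT : TT L ψ.symm i) (q : Cyl) (hq : q ∈ Kc L (i + 1)) (hx : 0 < xs (i + 1) q) :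
    -(1 / 2) < xs (i + 1) (ψ q) := by
  by_contra hcon
  push Not at hcon
  obtain ⟨r, hr1, hr2, hr0⟩ := root_exists (fun x => 12 * x ^ 3 - 9 * x - 2) (by fun_prop)
    (-(1 / 2)) 0 (by norm_num) (Or.inr ⟨by norm_num, by norm_num⟩)
  obtain ⟨t, ht1, ht2, ht0⟩ := root_exists (fun x => 12 * x ^ 3 - 9 * x - 2) (by fun_prop)
    0 1 (by norm_num) (Or.inl ⟨by norm_num, by norm_num⟩)
  obtain ⟨x0, hx0, hx0t⟩ := exists_point L (i + 1) t (by linarith) ht2.le
  -- the set of crossings with positive `xs (i+1)` is preserved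
  have hX : ∀ y, y ∈ Kc L i → y ∈ Kc L (i + 1) → 0 < xs (i + 1) y → 0 < xs (i + 1) (ψ y) := by
    intro y hy1 hy2 hy3
    have e1 : ψ y ∈ Kc L i := (hψ i (by omega) y).mpr hy1
    have e2 : ψ y ∈ Kc L (i + 1) := (hψ (i + 1) h2 y).mpr hy2
    have e3 := ((cross_iff L i h1 h2 (ψ y)).mp ⟨e1, e2⟩).2
    rw [xs_succ] at hy3 ⊢
    rcases lt_trichotomy (xs i (ψ y)) 0 with h | h | h
    · linarith
    · rw [h] at e3
      norm_num at e3
    · have := hT (ψ y) e1 e2 h
      rw [Homeomorph.symm_apply_apply] at this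
      linarith
  have hx0' : x0 ∈ Kc L i := by
    refine ((cross_iff' L i h1 h2 x0).mpr ⟨hx0, ?_⟩).1
    rw [hx0t]
    exact ht0
  have hx0pos : 0 < xs (i + 1) x0 := by rw [hx0t]; exact ht1
  have hfx0 := hX x0 hx0' hx0 hx0pos
  have hcont : Continuous fun y => xs (i + 1) (ψ y) := (cont_xs (i + 1)).comp ψ.continuous
  have hivt := (halfC_conn L (i + 1)).intermediate_value (a := q) (b := x0) ⟨hq, hx⟩
    ⟨hx0, hx0pos⟩ (f := fun y => xs (i + 1) (ψ y)) hcont.continuousOn
  obtain ⟨y, hy, hyr⟩ := hivt (show r ∈ Set.Icc _ _ from ⟨by linarith, by linarith⟩)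
  have hyr' : xs (i + 1) (ψ y) = r := hyr
  have e4 : ψ y ∈ Kc L (i + 1) := (hψ (i + 1) h2 y).mpr hy.1
  have e5 : ψ y ∈ Kc L i := by
    refine ((cross_iff' L i h1 h2 (ψ y)).mpr ⟨e4, ?_⟩).1
    rw [hyr']
    exact hr0
  have e6 : y ∈ Kc L i := (hψ i (by omega) y).mp e5
  have e7 := hX y e6 hy.1 hy.2
  rw [hyr'] at e7
  linarith

theorem stepT (L : ℕ) (ψ : Cyl ≃ₜ Cyl) (hψ : Pres L ψ) (i : ℕ) (h1 : 1 ≤ i) (h2 : i + 2 ≤ L)
    (hT : TT L ψ.symm i) : TT L ψ (i + 1) := by
  intro q hq1 hq2 hx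
  have e1 := mainL L ψ hψ i h1 (by omega) hT q hq1 hx
  have e2 : ψ q ∈ Kc L (i + 1) := (hψ (i + 1) (by omega) q).mpr hq1
  have e3 : ψ q ∈ Kc L (i + 1 + 1) := (hψ (i + 1 + 1) (by omega) q).mpr hq2
  have e4 := ((cross_iff L (i + 1) (by omega) (by omega) (ψ q)).mp ⟨e2, e3⟩).2
  by_contra hcon
  push Not at hcon
  set x := xs (i + 1) (ψ q)
  have h3 : -(1 / 8) ≤ x ^ 3 := by
    have h4 : x ^ 2 ≤ 1 / 4 := by nlinarith
    have h5 : x ^ 3 = x * x ^ 2 := by ring
    rw [h5]
    nlinarith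
  linarith

theorem baseT (L : ℕ) (hL : 2 ≤ L) (ψ : Cyl ≃ₜ Cyl) (hψ : Pres L ψ) : TT L ψ 1 := by
  intro q hq1 hq2 hx
  by_contra hcon
  push Not at hcon
  have hneg : ∀ y, y ∈ Kc L 1 → y ∈ Kc L 2 → xs 1 y ≤ 0 → xs 1 y < -(9 / 10) := by
    intro y hy1 hy2 hy3
    have e := ((cross_iff L 1 le_rfl hL y).mp ⟨hy1, hy2⟩).2
    by_contra h
    push Not at h
    set x := xs 1 y
    have h4 : x ^ 2 ≤ 81 / 100 := by nlinarith
    have h5 : x ^ 3 = x * x ^ 2 := by ring
    rw [h5] at e
    nlinarith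
  have e1 : ψ q ∈ Kc L 1 := (hψ 1 (by omega) q).mpr hq1
  have e2 : ψ q ∈ Kc L 2 := (hψ 2 hL q).mpr hq2
  have e3 := hneg _ e1 e2 hcon
  obtain ⟨r, hr1, hr2, hr0⟩ := root_exists (fun x => 24 * x ^ 3 - 21 * x - 5) (by fun_prop)
    (-(9 / 10)) (-(1 / 2)) (by norm_num) (Or.inl ⟨by norm_num, by norm_num⟩)
  have hcross0 : ∀ y, y ∈ Kc L 1 → (y ∈ Kc L 0 ↔ 24 * xs 1 y ^ 3 - 21 * xs 1 y - 5 = 0) := by
    intro y hy
    have hy' : y.2 = H L 0 1 y.1 := hy
    have hx1 : xs 1 y = y.1.cos := by unfold xs; ring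
    rw [hx1]
    constructor
    · intro h
      have h' : y.2 = H L 0 0 y.1 := h
      rw [hy', H_mid L 0 1 le_rfl (by omega), H_zero] at h'
      unfold C3 at h'
      push_cast at h'
      linarith
    · intro h
      show y.2 = H L 0 0 y.1
      rw [hy', H_mid L 0 1 le_rfl (by omega), H_zero]
      unfold C3
      push_cast
      linarith
  have hcont : Continuous fun y => xs 1 (ψ y) := (cont_xs 1).comp ψ.continuous
  have hall : ∀ y ∈ halfC L 1, xs 1 (ψ y) < 0 := by
    intro y hy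
    by_contra h
    push Not at h
    have hivt := (halfC_conn L 1).intermediate_value (a := q) (b := y) ⟨hq1, hx⟩ hy
      (f := fun y => xs 1 (ψ y)) hcont.continuousOn
    obtain ⟨z, hz, hzr⟩ := hivt (show r ∈ Set.Icc _ _ from ⟨by linarith, by linarith⟩)
    have hzr' : xs 1 (ψ z) = r := hzr
    have e4 : ψ z ∈ Kc L 1 := (hψ 1 (by omega) z).mpr hz.1
    have e5 : ψ z ∈ Kc L 0 := (hcross0 _ e4).mpr (by rw [hzr']; exact hr0)
    have e6 : z ∈ Kc L 0 := (hψ 0 (by omega) z).mp e5
    have e7 := (hcross0 z hz.1).mp e6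
    have e8 := hz.2
    have e9 := (abs_le.mp (xs_le 1 z)).2
    set x := xs 1 z
    have h4 : x ^ 2 ≤ 1 := by nlinarith
    have h5 : x ^ 3 = x * x ^ 2 := by ring
    rw [h5] at e7
    nlinarith
  -- three distinct crossings with positive cosine
  obtain ⟨u, hu1, hu2, hu0⟩ := root_exists (fun x => 12 * x ^ 3 - 9 * x + 2) (by fun_prop)
    0 (1 / 2) (by norm_num) (Or.inr ⟨by norm_num, by norm_num⟩)
  obtain ⟨v, hv1, hv2, hv0⟩ := root_exists (fun x => 12 * x ^ 3 - 9 * x + 2) (by fun_prop)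
    (1 / 2) 1 (by norm_num) (Or.inl ⟨by norm_num, by norm_num⟩)
  have hpt : ∀ θ : Real.Angle, 0 < θ.cos → 12 * θ.cos ^ 3 - 9 * θ.cos + 2 = 0 →
      (((θ, H L 0 1 θ) : Cyl) ∈ Kc L 1 ∧ ((θ, H L 0 1 θ) : Cyl) ∈ Kc L 2
        ∧ ((θ, H L 0 1 θ) : Cyl) ∈ halfC L 1) := by
    intro θ hθ hθ0
    have hx1 : xs 1 ((θ, H L 0 1 θ) : Cyl) = θ.cos := by unfold xs; ring
    have h1 : ((θ, H L 0 1 θ) : Cyl) ∈ Kc L 1 := rfl
    have h2 := ((cross_iff L 1 le_rfl hL ((θ, H L 0 1 θ) : Cyl)).mpr
      ⟨h1, by rw [hx1]; exact hθ0⟩).2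
    exact ⟨h1, h2, h1, by rw [hx1]; exact hθ⟩
  -- images are determined by the sine
  have himg : ∀ y z, y ∈ Kc L 1 → y ∈ Kc L 2 → y ∈ halfC L 1 → z ∈ Kc L 1 → z ∈ Kc L 2 →
      z ∈ halfC L 1 → (ψ y).1.cos = (ψ z).1.cos ∧ ((ψ y).1.sin = (ψ z).1.sin → y = z) := by
    intro y z hy1 hy2 hy3 hz1 hz2 hz3
    have a1 : ψ y ∈ Kc L 1 := (hψ 1 (by omega) y).mpr hy1
    have a2 : ψ y ∈ Kc L 2 := (hψ 2 hL y).mpr hy2
    have b1 : ψ z ∈ Kc L 1 := (hψ 1 (by omega) z).mpr hz1
    have b2 : ψ z ∈ Kc L 2 := (hψ 2 hL z).mpr hz2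
    have a3 := hneg _ a1 a2 (hall y hy3).le
    have b3 := hneg _ b1 b2 (hall z hz3).le
    have a4 := ((cross_iff L 1 le_rfl hL (ψ y)).mp ⟨a1, a2⟩).2
    have b4 := ((cross_iff L 1 le_rfl hL (ψ z)).mp ⟨b1, b2⟩).2
    have hxy : xs 1 (ψ y) = (ψ y).1.cos := by unfold xs; ring
    have hxz : xs 1 (ψ z) = (ψ z).1.cos := by unfold xs; ring
    rw [hxy] at a3 a4
    rw [hxz] at b3 b4
    set w1 := (ψ y).1.cos with hw1
    set w2 := (ψ z).1.cos with hw2
    have hprod : (w1 - w2) * (12 * (w1 ^ 2 + w1 * w2 + w2 ^ 2) - 9) = 0 := by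
      linear_combination a4 - b4
    have hfac : 0 < 12 * (w1 ^ 2 + w1 * w2 + w2 ^ 2) - 9 := by nlinarith
    have hw : w1 = w2 := by
      rcases mul_eq_zero.mp hprod with h | h
      · linarith
      · linarith
    refine ⟨hw, fun hs => ?_⟩
    have hang : (ψ y).1 = (ψ z).1 := ang_eq_of _ _ (by rw [← hw1, ← hw2]; exact hw) hs
    have hval : (ψ y).2 = (ψ z).2 := by
      have c1 : (ψ y).2 = H L 0 1 (ψ y).1 := a1
      have c2 : (ψ z).2 = H L 0 1 (ψ z).1 := b1
      rw [c1, c2, hang]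
    exact ψ.injective (Prod.ext hang hval)
  set α := Real.arccos u with hα
  set β := Real.arccos v with hβ
  have hcu : Real.cos α = u := Real.cos_arccos (by linarith) (by linarith)
  have hcv : Real.cos β = v := Real.cos_arccos (by linarith) (by linarith)
  have hsu : 0 < Real.sin α := by
    rw [hα, Real.sin_arccos]
    apply Real.sqrt_pos.mpr
    nlinarith
  obtain ⟨p1, p2, p3⟩ := hpt (α : Real.Angle) (by rw [Real.Angle.cos_coe, hcu]; exact hu1)
    (by rw [Real.Angle.cos_coe, hcu]; exact hu0)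
  obtain ⟨q1, q2, q3⟩ := hpt ((-α : ℝ) : Real.Angle)
    (by rw [Real.Angle.cos_coe, Real.cos_neg, hcu]; exact hu1)
    (by rw [Real.Angle.cos_coe, Real.cos_neg, hcu]; exact hu0)
  obtain ⟨r1, r2, r3⟩ := hpt (β : Real.Angle) (by rw [Real.Angle.cos_coe, hcv]; linarith)
    (by rw [Real.Angle.cos_coe, hcv]; exact hv0)
  set P : Cyl := ((α : Real.Angle), H L 0 1 (α : Real.Angle)) with hP
  set Q : Cyl := (((-α : ℝ) : Real.Angle), H L 0 1 ((-α : ℝ) : Real.Angle)) with hQ
  set R : Cyl := ((β : Real.Angle), H L 0 1 (β : Real.Angle)) with hR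
  have hPQ : P ≠ Q := by
    intro h
    have h1 : (α : Real.Angle).sin = ((-α : ℝ) : Real.Angle).sin := by
      have := congrArg (fun y : Cyl => y.1.sin) h
      simpa only [hP, hQ] using this
    rw [Real.Angle.sin_coe, Real.Angle.sin_coe, Real.sin_neg] at h1
    linarith
  have hPR : P ≠ R := by
    intro h
    have h1 : (α : Real.Angle).cos = (β : Real.Angle).cos := by
      have := congrArg (fun y : Cyl => y.1.cos) h
      simpa only [hP, hR] using this
    rw [Real.Angle.cos_coe, Real.Angle.cos_coe, hcu, hcv] at h1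
    linarith
  have hQR : Q ≠ R := by
    intro h
    have h1 : ((-α : ℝ) : Real.Angle).cos = (β : Real.Angle).cos := by
      have := congrArg (fun y : Cyl => y.1.cos) h
      simpa only [hQ, hR] using this
    rw [Real.Angle.cos_coe, Real.Angle.cos_coe, Real.cos_neg, hcu, hcv] at h1
    linarith
  have iPQ := himg P Q p1 p2 p3 q1 q2 q3
  have iPR := himg P R p1 p2 p3 r1 r2 r3
  have iQR := himg Q R q1 q2 q3 r1 r2 r3
  have sP := ang_sq (ψ P).1
  have sQ := ang_sq (ψ Q).1
  have sR := ang_sq (ψ R).1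
  have hs1 : (ψ P).1.sin ^ 2 = (ψ Q).1.sin ^ 2 := by rw [iPQ.1] at sP; linarith
  have hs2 : (ψ P).1.sin ^ 2 = (ψ R).1.sin ^ 2 := by rw [iPR.1] at sP; linarith
  rcases sq_eq_sq_iff_eq_or_eq_neg.mp hs1 with h | h
  · exact hPQ (iPQ.2 h)
  · rcases sq_eq_sq_iff_eq_or_eq_neg.mp hs2 with h' | h'
    · exact hPR (iPR.2 h')
    · exact hQR (iQR.2 (by linarith))

theorem allT (L : ℕ) (hL : 2 ≤ L) (ψ : Cyl ≃ₜ Cyl) (hψ : Pres L ψ) (i : ℕ) :
    i + 2 ≤ L → TT L ψ (i + 1) ∧ TT L ψ.symm (i + 1) := by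
  have hψ' := pres_symm L ψ hψ
  induction i with
  | zero => exact fun _ => ⟨baseT L hL ψ hψ, baseT L hL ψ.symm hψ'⟩
  | succ i ih =>
    intro h
    obtain ⟨h1, h2⟩ := ih (by omega)
    refine ⟨stepT L ψ hψ (i + 1) (by omega) (by omega) h2, ?_⟩
    exact stepT L ψ.symm hψ' (i + 1) (by omega) (by omega) (by rw [Homeomorph.symm_symm]; exact h1)

/-- The angle of the twist. -/
noncomputable def third : Real.Angle := ((2 * Real.pi / 3 : ℝ) : Real.Angle)

theorem curve_Bd (L : ℕ) (c : Real.Angle) (i : ℕ) :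
    curve (Bd L c i) = {q : Cyl | q.2 = H L c i q.1} := by
  ext q
  simp only [curve, Set.mem_ofPred_eq, supp_Bd]

theorem H_same (L : ℕ) (c : Real.Angle) (i : ℕ) (hi : i ≤ L) (θ : Real.Angle) :
    H L c i θ = H L 0 i θ := by
  rcases Nat.eq_zero_or_pos i with h0 | h0
  · subst h0
    rw [H_zero, H_zero]
  · rw [H_mid L c i h0 hi, H_mid L 0 i h0 hi]

theorem notSame (L : ℕ) (hL : Odd L) (hL3 : 3 ≤ L) :
    ¬ WeaklySame (fun i : Fin (L + 2) => Bd L 0 i) (fun i : Fin (L + 2) => Bd L third i) := by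
  rintro ⟨φ, hφ⟩
  have hLpow : (-1 : ℝ) ^ L = -1 := hL.neg_one_pow
  have hpres : Pres L φ := by
    intro i hi q
    have h := hφ ⟨i, by omega⟩
    simp only [curve_Bd] at h
    have hset : {q : Cyl | q.2 = H L third i q.1} = Kc L i := by
      ext q
      simp only [Kc, Set.mem_ofPred_eq, H_same L third i hi]
    have hset2 : {q : Cyl | q.2 = H L 0 i q.1} = Kc L i := rfl
    rw [hset, hset2] at h
    constructor
    · intro hq
      rw [← h] at hq
      obtain ⟨q', hq', he⟩ := hq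
      rw [φ.injective he] at hq'
      exact hq'
    · intro hq
      rw [← h]
      exact ⟨q, hq, rfl⟩
  obtain ⟨X, hX1, hX2, hX0⟩ := root_exists (fun x => 24 * x ^ 3 - 21 * x + 5) (by fun_prop)
    (1 / 2) (9 / 10) (by norm_num) (Or.inl ⟨by norm_num, by norm_num⟩)
  set α : ℝ := Real.arccos X with hα
  have hcα : Real.cos α = X := Real.cos_arccos (by linarith) (by linarith)
  have hsα : 43 / 100 < Real.sin α := by
    rw [hα, Real.sin_arccos]
    apply Real.lt_sqrt_of_sq_lt
    nlinarith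
  set θ : Real.Angle := ((α + 2 * Real.pi / 3 : ℝ) : Real.Angle) with hθ
  have hsub : θ - third = (α : Real.Angle) := by
    rw [hθ, third, ← Real.Angle.coe_sub]
    congr 1
    ring
  have hcosθ : θ.cos < -(1 / 2) := by
    rw [hθ, Real.Angle.cos_coe, Real.cos_add, hcα]
    have e1 : Real.cos (2 * Real.pi / 3) = -(1 / 2) := by
      have : 2 * Real.pi / 3 = Real.pi - Real.pi / 3 := by ring
      rw [this, Real.cos_pi_sub, Real.cos_pi_div_three]
    have e2 : Real.sin (2 * Real.pi / 3) = Real.sqrt 3 / 2 := by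
      have : 2 * Real.pi / 3 = Real.pi - Real.pi / 3 := by ring
      rw [this, Real.sin_pi_sub, Real.sin_pi_div_three]
    rw [e1, e2]
    have e3 : (17 / 10 : ℝ) < Real.sqrt 3 := by
      apply Real.lt_sqrt_of_sq_lt
      norm_num
    nlinarith
  set pB : Cyl := (θ, H L third (L + 1) θ) with hpB
  have hpBcurve : pB ∈ curve (Bd L third (L + 1)) := by
    rw [curve_Bd]
    rfl
  have hpBK : pB ∈ Kc L L := by
    show H L third (L + 1) θ = H L 0 L θ
    rw [H_top, H_mid L 0 L (by omega) le_rfl, hLpow, ← tri_third.1 θ]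
    have : θ - ((2 * Real.pi / 3 : ℝ) : Real.Angle) = (α : Real.Angle) := hsub
    rw [hsub, this]
    unfold C3
    rw [Real.Angle.cos_coe, hcα]
    linarith
  have htop := hφ ⟨L + 1, by omega⟩
  have hpB' : pB ∈ φ '' curve (Bd L 0 (L + 1)) := by
    have h : φ '' curve (Bd L 0 (L + 1)) = curve (Bd L third (L + 1)) := htop
    rw [h]
    exact hpBcurve
  obtain ⟨pA, hpA, hAB⟩ := hpB'
  have hpAK : pA ∈ Kc L L := by
    rw [← hpres L le_rfl pA, hAB]
    exact hpBK
  rw [curve_Bd] at hpA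
  have hpA' : pA.2 = H L 0 (L + 1) pA.1 := hpA
  have hpAK' : pA.2 = H L 0 L pA.1 := hpAK
  have hxA : 0 < pA.1.cos := by
    rw [hpA', H_top, H_mid L 0 L (by omega) le_rfl, hLpow, sub_zero] at hpAK'
    unfold C3 at hpAK'
    by_contra hcon
    push Not at hcon
    have h1 := (abs_le.mp (acos_le pA.1)).1
    set x := pA.1.cos
    have h4 : x ^ 2 ≤ 1 := by nlinarith
    have h5 : x ^ 3 = x * x ^ 2 := by ring
    rw [h5] at hpAK'
    nlinarith
  have hxs : ∀ q : Cyl, xs L q = q.1.cos := by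
    intro q
    unfold xs
    rw [hLpow]
    ring
  obtain ⟨i, rfl⟩ : ∃ i, L = i + 3 := ⟨L - 3, by omega⟩
  have hT := (allT (i + 3) (by omega) φ hpres (i + 1) (by omega)).2
  have hm := mainL (i + 3) φ hpres (i + 2) (by omega) (by omega) hT pA hpAK
    (by rw [hxs]; exact hxA)
  have hm' : -(1 / 2) < xs (i + 3) (φ pA) := hm
  rw [hAB, hxs] at hm'
  have : pB.1.cos = θ.cos := rfl
  rw [this] at hm'
  linarith

/-! ### Proper sub-arrangements are equivalent -/

/-- The cut-off used for the twist. -/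
noncomputable def cut (e : ℕ) (y : ℝ) : ℝ := max 0 (min 1 ((y - (24 + 4 * e - 1)) / 2))

theorem cont_cut (e : ℕ) : Continuous (cut e) := by
  unfold cut
  fun_prop

/-- The twist of the cylinder: the part above is rotated, the part below is fixed. -/
noncomputable def tw (e : ℕ) (s : ℝ) : Cyl ≃ₜ Cyl where
  toFun q := (q.1 + ((s * (2 * Real.pi / 3) * cut e q.2 : ℝ) : Real.Angle), q.2)
  invFun q := (q.1 - ((s * (2 * Real.pi / 3) * cut e q.2 : ℝ) : Real.Angle), q.2)
  left_inv q := by simp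
  right_inv q := by simp
  continuous_toFun := by
    have h1 := cont_cut e
    have h2 : Continuous fun x : ℝ => (x : Real.Angle) := Real.Angle.continuous_coe
    fun_prop
  continuous_invFun := by
    have h1 := cont_cut e
    have h2 : Continuous fun x : ℝ => (x : Real.Angle) := Real.Angle.continuous_coe
    fun_prop

theorem tw_apply (e : ℕ) (s : ℝ) (q : Cyl) :
    tw e s q = (q.1 + ((s * (2 * Real.pi / 3) * cut e q.2 : ℝ) : Real.Angle), q.2) := rfl

theorem tw_isotopic (e : ℕ) : IsotopicToId (tw e 1) := by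
  refine ⟨fun s => tw e s, ?_, ?_, ?_⟩
  · have h1 := cont_cut e
    have h2 : Continuous fun x : ℝ => (x : Real.Angle) := Real.Angle.continuous_coe
    simp only [tw_apply]
    fun_prop
  · ext q
    · simp [tw_apply]
    · simp [tw_apply]
  · simp

theorem refl_isotopic : IsotopicToId (Homeomorph.refl Cyl) := by
  refine ⟨fun _ => Homeomorph.refl Cyl, ?_, rfl, rfl⟩
  simp only [Homeomorph.refl_apply]
  exact continuous_snd

theorem tw_top (e : ℕ) : PreservesTop (tw e 1) := by
  refine ⟨1, fun y hy θ => ?_⟩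
  rw [tw_apply]
  show 0 < y
  linarith

theorem refl_top : PreservesTop (Homeomorph.refl Cyl) := by
  refine ⟨1, fun y hy θ => ?_⟩
  show 0 < y
  linarith

theorem subSame (L : ℕ) (S : Finset (Fin (L + 2))) (hS : S.card < L + 2) :
    SameTypeOn S (fun i : Fin (L + 2) => Bd L 0 i) (fun i : Fin (L + 2) => Bd L third i) := by
  obtain ⟨e, he⟩ : ∃ e : Fin (L + 2), e ∉ S := by
    by_contra hcon
    push Not at hcon
    have : S = Finset.univ := Finset.eq_univ_iff_forall.mpr hcon
    rw [this, Finset.card_univ, Fintype.card_fin] at hS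
    exact lt_irrefl _ hS
  have hcurve : ∀ i : Fin (L + 2), (i : ℕ) ≤ L →
      curve (Bd L 0 i) = curve (Bd L third i) := by
    intro i hi
    rw [curve_Bd, curve_Bd]
    ext q
    simp only [Set.mem_ofPred_eq, H_same L third i hi]
  rcases Nat.lt_or_ge L (e : ℕ) with h | h
  · refine ⟨Homeomorph.refl Cyl, refl_isotopic, refl_top, ?_⟩
    intro i hi
    have hie : i ≠ e := fun h' => he (h' ▸ hi)
    have hie' : (i : ℕ) ≠ e := fun h' => hie (Fin.ext h')
    have hi1 := i.isLt
    have hi2 := e.isLt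
    have hiL : (i : ℕ) ≤ L := by omega
    show (Homeomorph.refl Cyl) '' curve (Bd L 0 i) = curve (Bd L third i)
    rw [← hcurve i hiL]
    simp
  · refine ⟨tw e 1, tw_isotopic e, tw_top e, ?_⟩
    intro i hi
    have hie : i ≠ e := fun h' => he (h' ▸ hi)
    have hie' : (i : ℕ) ≠ e := fun h' => hie (Fin.ext h')
    show (tw e 1) '' curve (Bd L 0 i) = curve (Bd L third i)
    rcases Nat.lt_or_ge (i : ℕ) e with h1 | h1
    · rw [← hcurve i (by omega)]
      have hfix : ∀ q ∈ curve (Bd L 0 i), tw e 1 q = q := by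
        intro q hq
        rw [curve_Bd] at hq
        have hq' : q.2 = H L 0 i q.1 := hq
        have hle := level_low L 0 e i h h1 q.1
        have hcut : cut e q.2 = 0 := by
          unfold cut
          rw [hq', max_eq_left]
          apply (min_le_right _ _).trans
          linarith
        rw [tw_apply, hcut, mul_zero, Real.Angle.coe_zero, add_zero]
      ext q
      constructor
      · rintro ⟨q', hq', rfl⟩
        rw [hfix q' hq']
        exact hq'
      · intro hq
        exact ⟨q, hq, hfix q hq⟩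
    · have h2 : (e : ℕ) < i := by omega
      have hi1 := i.isLt
      have hcut : ∀ c : Real.Angle, ∀ θ : Real.Angle, cut e (H L c i θ) = 1 := by
        intro c θ
        have hle := level_high L c e i h2 (by omega) θ
        unfold cut
        rw [min_eq_left (by linarith), max_eq_right (by norm_num)]
      have hrot : ∀ θ : Real.Angle, H L third i (θ + third) = H L 0 i θ := by
        intro θ
        rcases Nat.lt_or_ge L i with h3 | h3
        · have h4 : (i : ℕ) = L + 1 := by omega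
          rw [h4, H_top, H_top, add_sub_cancel_right, sub_zero]
        · rw [H_mid L third i (by omega) h3, H_mid L 0 i (by omega) h3]
          have h5 := tri_third.1 (θ + third)
          have h6 : θ + third - ((2 * Real.pi / 3 : ℝ) : Real.Angle) = θ := by
            show θ + third - third = θ
            exact add_sub_cancel_right θ third
          rw [h6] at h5
          rw [h5]
      rw [curve_Bd, curve_Bd]
      ext q
      constructor
      · rintro ⟨q', hq', rfl⟩
        have hq'' : q'.2 = H L 0 i q'.1 := hq'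
        show (tw e 1 q').2 = H L third i (tw e 1 q').1
        rw [tw_apply, hq'', hcut, mul_one, one_mul]
        exact (hrot q'.1).symm
      · intro hq
        have hq' : q.2 = H L third i q.1 := hq
        refine ⟨(q.1 - third, q.2), ?_, ?_⟩
        · show q.2 = H L 0 i (q.1 - third)
          rw [hq', ← hrot (q.1 - third), sub_add_cancel]
        · rw [tw_apply]
          have : cut e q.2 = 1 := by rw [hq', hcut]
          simp only
          rw [this, mul_one, one_mul]
          ext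
          · show q.1 - third + third = q.1
            exact sub_add_cancel _ _
          · rfl

/-- **Main result.** For every `m` there are two arrangements of `n > m` planar convex bodies, in
which every two bodies have at most six common supporting tangents, such that all corresponding
proper sub-arrangements (in particular all those on `m` indices) have the same combinatorial
type, although the two arrangements do not have the same combinatorial type. -/
theorem result : ∀ m : ℕ, ∃ n : ℕ, m < n ∧ ∃ A B : Fin n → Set (ℝ × ℝ),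
    IsArrangement A ∧ IsArrangement B ∧
    (∀ i j, i ≠ j → (tangents (A i) (A j)).ncard ≤ 6 ∧ (tangents (B i) (B j)).ncard ≤ 6) ∧
    (∀ S : Finset (Fin n), S.card < n → SameTypeOn S A B) ∧
    ¬ WeaklySame A B := by
  intro m
  have hodd : Odd (2 * m + 3) := ⟨m + 1, by ring⟩
  refine ⟨2 * m + 3 + 2, by omega, fun i => Bd (2 * m + 3) 0 i,
    fun i => Bd (2 * m + 3) third i, isArr _ hodd 0 tri_zero, isArr _ hodd third tri_third,
    ?_, ?_, ?_⟩
  · intro i j hij
    have hij' : (i : ℕ) ≠ j := fun h => hij (Fin.ext h)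
    have hi := i.isLt
    have hj := j.isLt
    exact ⟨(tangents_ok _ hodd 0 tri_zero i j (by omega) (by omega) hij').2,
      (tangents_ok _ hodd third tri_third i j (by omega) (by omega) hij').2⟩
  · intro S hS
    exact subSame _ S hS
  · exact notSame _ hodd (by omega)

end Pool.Agent.Results.MP_f9fe38_co.NotLocal
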